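import Pool.Agent.H266R3.LDef
import Pool.Agent.W179.Erdos

/-!
# An unbounded uniformly discrete metric space whose Lipschitz space is almost square
-/

open Pool.Agent.H266R3.LF Pool.Agent.W179.Erdos

namespace Pool.Agent.Results.MP_fe8a5b_an.DiscreteAlmostSquare

/-- Almost square normed spaces. -/
def ASQ (X : Type) [NormedAddCommGroup X] [NormedSpace ℝ X] : Prop :=
  ∀ (k : ℕ) (x : Fin k → X), (∀ i, ‖x i‖ = 1) → ∀ ε : ℝ, 0 < ε →
    ∃ y : X, ‖y‖ = 1 ∧ ∀ i, ‖x i + y‖ ≤ 1 + ε ∧ ‖x i - y‖ ≤ 1 + ε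

/-- Uniformly discrete metric spaces. -/
def UniformlyDiscrete (M : Type) [MetricSpace M] : Prop :=
  ∃ δ : ℝ, 0 < δ ∧ ∀ p q : M, p ≠ q → δ ≤ dist p q

/-! ### The graphs -/

lemma exists_graph (n : ℕ) : ∃ (G : SimpleGraph ℕ) (R : ℕ), ¬ G.Colorable n ∧
    (∀ l f, FCyc G l f → n < l) ∧ (∀ u v, G.Reachable u v → G.dist u v ≤ R) ∧ n ≤ R ∧ 1 ≤ R := by
  classical
  obtain ⟨V, _, H, hcol, hcyc⟩ := erdos n n
  let φ : V ↪ ℕ := (Fintype.equivFin V).toEmbedding.trans Fin.valEmbedding
  let G : SimpleGraph ℕ := H.map φ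
  have hadj : ∀ u v, G.Adj u v → ∃ a b, H.Adj a b ∧ φ a = u ∧ φ b = v := by
    intro u v h
    exact (SimpleGraph.map_adj φ H u v).1 h
  let S : Finset ℕ := Finset.univ.image φ
  have hS : ∀ u v, G.Reachable u v → u ≠ v → u ∈ S := by
    intro u v h hne
    obtain ⟨w⟩ := h
    cases w with
    | nil => exact absurd rfl hne
    | cons h _ =>
      obtain ⟨a, b, _, ha, _⟩ := hadj _ _ h
      rw [← ha]
      exact Finset.mem_image_of_mem _ (Finset.mem_univ a)
  refine ⟨G, (S ×ˢ S).sup (fun p => G.dist p.1 p.2) + n + 1, ?_, ?_, ?_, by omega, by omega⟩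
  · intro h
    exact hcol (h.of_hom (SimpleGraph.Embedding.map φ H).toHom)
  · intro l f hf
    have h1 : ∀ i, ∃ a, i < l → φ a = f i := by
      intro i
      by_cases hi : i < l
      · rcases Nat.lt_or_ge (i + 1) l with h | h
        · obtain ⟨a, b, _, ha, _⟩ := hadj _ _ (hf.adj i h)
          exact ⟨a, fun _ => ha⟩
        · have : i = l - 1 := by omega
          subst this
          obtain ⟨a, b, _, ha, _⟩ := hadj _ _ hf.close
          exact ⟨a, fun _ => ha⟩
      · obtain ⟨a, b, _, ha, _⟩ := hadj _ _ hf.close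
        exact ⟨a, fun h => absurd h hi⟩
    choose f' hf' using h1
    have hA : ∀ i j, i < l → j < l → G.Adj (f i) (f j) → H.Adj (f' i) (f' j) := by
      intro i j hi hj h
      rw [← hf' i hi, ← hf' j hj] at h
      exact (SimpleGraph.map_adj_apply).1 h
    have h3 := hf.three
    refine hcyc l f' ⟨h3, fun i hi j hj h => ?_, fun i hi => ?_, ?_⟩
    · apply hf.inj i hi j hj
      rw [← hf' i hi, ← hf' j hj, h]
    · exact hA i (i + 1) (by omega) hi (hf.adj i hi)
    · exact hA (l - 1) 0 (by omega) (by omega) hf.close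
  · intro u v h
    by_cases huv : u = v
    · subst huv
      rw [SimpleGraph.dist_self]
      exact Nat.zero_le _
    · have h1 := hS u v h huv
      have h2 := hS v u h.symm (Ne.symm huv)
      have h3 := Finset.le_sup (f := fun p : ℕ × ℕ => G.dist p.1 p.2)
        (Finset.mk_mem_product h1 h2)
      dsimp only at h3
      omega

/-- The graphs. -/
noncomputable def G (n : ℕ) : SimpleGraph ℕ := (exists_graph n).choose

/-- The radii. -/
noncomputable def R (n : ℕ) : ℕ := (exists_graph n).choose_spec.choose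

lemma G_spec (n : ℕ) : ¬ (G n).Colorable n ∧
    (∀ l f, FCyc (G n) l f → n < l) ∧ (∀ u v, (G n).Reachable u v → (G n).dist u v ≤ R n) ∧
    n ≤ R n ∧ 1 ≤ R n := (exists_graph n).choose_spec.choose_spec

/-! ### The metric space -/

/-- The underlying set. -/
def M : Type := ℕ × ℕ

open Classical in
/-- The distance. -/
noncomputable def dd (p q : M) : ℕ :=
  if p.1 = q.1 ∧ (G p.1).Reachable p.2 q.2 then (G p.1).dist p.2 q.2 else R p.1 + R q.1

lemma dd_of_reach {n u v : ℕ} (h : (G n).Reachable u v) :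
    dd ((n, u) : ℕ × ℕ) ((n, v) : ℕ × ℕ) = (G n).dist u v := if_pos ⟨rfl, h⟩

lemma dd_self (p : M) : dd p p = 0 := by
  have h1 : dd p p = (G p.1).dist p.2 p.2 := if_pos ⟨rfl, SimpleGraph.Reachable.refl _⟩
  rw [h1, SimpleGraph.dist_self]

lemma dd_comm (p q : M) : dd p q = dd q p := by
  obtain ⟨n, u⟩ := p
  obtain ⟨m, v⟩ := q
  by_cases h : n = m
  · subst h
    by_cases h' : (G n).Reachable u v
    · rw [dd_of_reach h', dd_of_reach h'.symm, SimpleGraph.dist_comm]
    · have h1 : dd ((n, u) : ℕ × ℕ) ((n, v) : ℕ × ℕ) = R n + R n := if_neg fun h => h' h.2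
      have h2 : dd ((n, v) : ℕ × ℕ) ((n, u) : ℕ × ℕ) = R n + R n := if_neg fun h => h' h.2.symm
      rw [h1, h2]
  · have h1 : dd ((n, u) : ℕ × ℕ) ((m, v) : ℕ × ℕ) = R n + R m := if_neg fun h' => h h'.1
    have h2 : dd ((m, v) : ℕ × ℕ) ((n, u) : ℕ × ℕ) = R m + R n := if_neg fun h' => h h'.1.symm
    rw [h1, h2, add_comm]

lemma dd_triangle (p q r : M) : dd p r ≤ dd p q + dd q r := by
  obtain ⟨n, u⟩ := p
  obtain ⟨m, v⟩ := q
  obtain ⟨k, w⟩ := r
  by_cases h1 : n = m ∧ (G n).Reachable u v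
  · obtain ⟨rfl, hr1⟩ := h1
    rw [dd_of_reach hr1]
    by_cases h2 : n = k ∧ (G n).Reachable v w
    · obtain ⟨rfl, hr2⟩ := h2
      rw [dd_of_reach hr2, dd_of_reach (hr1.trans hr2)]
      obtain ⟨a, ha⟩ := hr1.exists_walk_length_eq_dist
      obtain ⟨b, hb⟩ := hr2.exists_walk_length_eq_dist
      rw [← ha, ← hb, ← SimpleGraph.Walk.length_append]
      exact SimpleGraph.dist_le _
    · have e1 : dd ((n, v) : ℕ × ℕ) ((k, w) : ℕ × ℕ) = R n + R k := if_neg h2
      have e2 : dd ((n, u) : ℕ × ℕ) ((k, w) : ℕ × ℕ) = R n + R k :=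
        if_neg fun h => h2 ⟨h.1, hr1.symm.trans h.2⟩
      rw [e1, e2]
      omega
  · have e1 : dd ((n, u) : ℕ × ℕ) ((m, v) : ℕ × ℕ) = R n + R m := if_neg h1
    rw [e1]
    by_cases h2 : m = k ∧ (G m).Reachable v w
    · obtain ⟨rfl, hr2⟩ := h2
      have e2 : dd ((n, u) : ℕ × ℕ) ((m, w) : ℕ × ℕ) = R n + R m := by
        refine if_neg fun h => h1 ?_
        obtain ⟨rfl, h'⟩ := h
        exact ⟨rfl, SimpleGraph.Reachable.trans h' hr2.symm⟩
      rw [e2]
      omega
    · have e2 : dd ((m, v) : ℕ × ℕ) ((k, w) : ℕ × ℕ) = R m + R k := if_neg h2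
      rw [e2]
      by_cases h3 : n = k ∧ (G n).Reachable u w
      · obtain ⟨rfl, hr3⟩ := h3
        rw [dd_of_reach hr3]
        have := (G_spec n).2.2.1 u w hr3
        omega
      · have e3 : dd ((n, u) : ℕ × ℕ) ((k, w) : ℕ × ℕ) = R n + R k := if_neg h3
        rw [e3]
        omega

lemma one_le_dd {p q : M} (hne : p ≠ q) : 1 ≤ dd p q := by
  obtain ⟨n, u⟩ := p
  obtain ⟨m, v⟩ := q
  by_cases h1 : n = m ∧ (G n).Reachable u v
  · obtain ⟨rfl, hr1⟩ := h1
    rw [dd_of_reach hr1]
    apply hr1.pos_dist_of_ne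
    rintro rfl
    exact hne rfl
  · have e1 : dd ((n, u) : ℕ × ℕ) ((m, v) : ℕ × ℕ) = R n + R m := if_neg h1
    rw [e1]
    have := (G_spec n).2.2.2.2
    omega

noncomputable instance : MetricSpace M where
  dist p q := dd p q
  dist_self p := by rw [dd_self]; simp
  dist_comm p q := by rw [dd_comm]
  dist_triangle p q r := by exact_mod_cast dd_triangle p q r
  eq_of_dist_eq_zero {p q} h := by
    by_contra hne
    have h1 := one_le_dd hne
    have h2 : ((dd p q : ℕ) : ℝ) = 0 := h
    have h3 : dd p q = 0 := by exact_mod_cast h2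
    omega

lemma dist_M (p q : M) : dist p q = (dd p q : ℝ) := rfl

lemma one_le_dist {p q : M} (hne : p ≠ q) : 1 ≤ dist p q := by
  rw [dist_M]; exact_mod_cast one_le_dd hne

/-- The point `u` of the `n`-th level. -/
def pt (n u : ℕ) : M := ((n, u) : ℕ × ℕ)

lemma dist_adj {n u v : ℕ} (h : (G n).Adj u v) : dist (pt n u) (pt n v) = 1 := by
  rw [dist_M, pt, pt, dd_of_reach h.reachable, SimpleGraph.dist_eq_one_iff_adj.2 h]
  simp

/-- A function which is controlled on the edges of the level `n` and between different components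
is Lipschitz. -/
lemma lip_of_edges (n : ℕ) (h : M → ℝ) (C : ℝ)
    (hedge : ∀ u v, (G n).Adj u v → |h (pt n u) - h (pt n v)| ≤ C)
    (hother : ∀ p q : M, ¬ (p.1 = n ∧ q.1 = n ∧ (G n).Reachable p.2 q.2) →
      |h p - h q| ≤ C * dist p q) (p q : M) : |h p - h q| ≤ C * dist p q := by
  by_cases hpq : p.1 = n ∧ q.1 = n ∧ (G n).Reachable p.2 q.2
  · obtain ⟨m, u⟩ := p
    obtain ⟨m', v⟩ := q
    obtain ⟨h1, h2, h3⟩ := hpq
    have h1' : n = m := h1.symm
    have h2' : m' = n := h2
    subst h1'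
    subst h2'
    clear h1 h2
    have h3' : (G m').Reachable u v := h3
    have key : ∀ (a b : ℕ) (w : (G m').Walk a b), |h (pt m' a) - h (pt m' b)| ≤ C * w.length := by
      intro a b w
      induction w with
      | nil => simp
      | @cons a c b hac w ih =>
        have h4 := hedge a c hac
        rw [SimpleGraph.Walk.length_cons]
        push_cast
        have h5 : h (pt m' a) - h (pt m' b) = (h (pt m' a) - h (pt m' c)) +
          (h (pt m' c) - h (pt m' b)) := by ring
        rw [h5]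
        refine (abs_add_le _ _).trans ?_
        linarith
    obtain ⟨w, hw⟩ := h3'.exists_walk_length_eq_dist
    have h4 := key u v w
    rw [hw] at h4
    have h5 : dist (pt m' u) (pt m' v) = ((G m').dist u v : ℝ) := by
      rw [dist_M, pt, pt, dd_of_reach h3']
    show |h (pt m' u) - h (pt m' v)| ≤ C * dist (pt m' u) (pt m' v)
    rw [h5]
    exact h4
  · exact hother p q hpq

/-! ### The almost square property -/

lemma exists_mono {n k K : ℕ} (hK : 0 < K) (hn : (K + 2) ^ k ≤ n) (F : Fin k → ℕ → ℝ)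
    (hF : ∀ i u v, (G n).Adj u v → |F i u - F i v| ≤ 1) :
    ∃ x y, (G n).Adj x y ∧ ∀ i, |F i x - F i y| ≤ 1 / K := by
  classical
  by_contra hcon
  push Not at hcon
  apply (G_spec n).1
  let c : ℕ → (Fin k → ZMod (K + 2)) := fun u i => ((⌊(K : ℝ) * F i u⌋ : ℤ) : ZMod (K + 2))
  have hc : ∀ u v, (G n).Adj u v → c u ≠ c v := by
    intro u v huv heq
    obtain ⟨i, hi⟩ := hcon u v huv
    have h1 : ((⌊(K : ℝ) * F i u⌋ : ℤ) : ZMod (K + 2)) = ((⌊(K : ℝ) * F i v⌋ : ℤ) : ZMod (K + 2)) :=
      congrFun heq i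
    have h2 : ((K + 2 : ℕ) : ℤ) ∣ ⌊(K : ℝ) * F i u⌋ - ⌊(K : ℝ) * F i v⌋ := by
      have := (ZMod.intCast_eq_intCast_iff_dvd_sub _ _ _).1 h1
      rw [← dvd_neg, neg_sub]
      exact this
    have hK' : (0 : ℝ) < K := by exact_mod_cast hK
    have h3 := abs_le.1 (hF i u v huv)
    have a1 := Int.floor_le ((K : ℝ) * F i u)
    have a2 := Int.lt_floor_add_one ((K : ℝ) * F i u)
    have a3 := Int.floor_le ((K : ℝ) * F i v)
    have a4 := Int.lt_floor_add_one ((K : ℝ) * F i v)
    have b1 : (K : ℝ) * (F i u - F i v) ≤ K := by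
      calc (K : ℝ) * (F i u - F i v) ≤ K * 1 := mul_le_mul_of_nonneg_left h3.2 hK'.le
        _ = K := mul_one _
    have b2 : -(K : ℝ) ≤ (K : ℝ) * (F i u - F i v) := by
      calc -(K : ℝ) = K * (-1) := by ring
        _ ≤ (K : ℝ) * (F i u - F i v) := mul_le_mul_of_nonneg_left h3.1 hK'.le
    rw [mul_sub] at b1 b2
    have h4 : |⌊(K : ℝ) * F i u⌋ - ⌊(K : ℝ) * F i v⌋| < ((K + 2 : ℕ) : ℤ) := by
      rw [abs_lt]
      constructor
      · have : -((K : ℝ) + 2) < (⌊(K : ℝ) * F i u⌋ : ℝ) - ⌊(K : ℝ) * F i v⌋ := by linarith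
        push_cast
        exact_mod_cast this
      · have : (⌊(K : ℝ) * F i u⌋ : ℝ) - ⌊(K : ℝ) * F i v⌋ < (K : ℝ) + 2 := by linarith
        push_cast
        exact_mod_cast this
    have h5 := Int.eq_zero_of_abs_lt_dvd h2 h4
    have h6 : (⌊(K : ℝ) * F i u⌋ : ℝ) = ⌊(K : ℝ) * F i v⌋ := by
      have : ⌊(K : ℝ) * F i u⌋ = ⌊(K : ℝ) * F i v⌋ := by linarith
      exact_mod_cast this
    have h7 : |(K : ℝ) * F i u - K * F i v| < 1 := by
      rw [abs_lt]
      constructor <;> linarith
    rw [← mul_sub, abs_mul, abs_of_pos hK'] at h7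
    rw [div_lt_iff₀ hK'] at hi
    linarith
  have hcol : (G n).Colorable (Fintype.card (Fin k → ZMod (K + 2))) :=
    (SimpleGraph.Coloring.mk c (fun {u v} h => hc u v h)).colorable
  refine hcol.mono ?_
  rw [Fintype.card_fun, ZMod.card, Fintype.card_fin]
  exact hn

open Classical in
/-- The bump near an edge `xy` of the level `n`. -/
noncomputable def bump (n K x y : ℕ) (p : M) : ℝ :=
  if p.1 = n ∧ ((G n).deleteEdges {s(x, y)}).Reachable x p.2 then
    max 0 (1 - (((G n).deleteEdges {s(x, y)}).dist x p.2 : ℝ) / K) else 0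

lemma bump_nonneg (n K x y : ℕ) (p : M) : 0 ≤ bump n K x y p := by
  unfold bump
  split_ifs
  · exact le_max_left _ _
  · exact le_rfl

lemma bump_le_one (n K x y : ℕ) (p : M) : bump n K x y p ≤ 1 := by
  unfold bump
  split_ifs
  · apply max_le zero_le_one
    have : (0 : ℝ) ≤ (((G n).deleteEdges {s(x, y)}).dist x p.2 : ℝ) / K := by positivity
    linarith
  · exact zero_le_one

lemma bump_other {n K x y : ℕ} {p : M} (h : p.1 ≠ n) : bump n K x y p = 0 :=
  if_neg fun h' => h h'.1

lemma abs_bump_sub_le (n K x y : ℕ) (p q : M) : |bump n K x y p - bump n K x y q| ≤ 1 := by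
  have h1 := bump_nonneg n K x y p
  have h2 := bump_le_one n K x y p
  have h3 := bump_nonneg n K x y q
  have h4 := bump_le_one n K x y q
  rw [abs_le]
  constructor <;> linarith

lemma bump_x (n K x y : ℕ) : bump n K x y (pt n x) = 1 := by
  have h1 : bump n K x y (pt n x) =
      max 0 (1 - (((G n).deleteEdges {s(x, y)}).dist x x : ℝ) / K) :=
    if_pos ⟨rfl, SimpleGraph.Reachable.refl _⟩
  rw [h1, SimpleGraph.dist_self]
  simp

lemma bump_y {n K x y : ℕ} (hK : 0 < K) (hKn : K ≤ n) (hxy : (G n).Adj x y) :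
    bump n K x y (pt n y) = 0 := by
  by_cases hr : ((G n).deleteEdges {s(x, y)}).Reachable x y
  · have h1 : bump n K x y (pt n y) =
        max 0 (1 - (((G n).deleteEdges {s(x, y)}).dist x y : ℝ) / K) := if_pos ⟨rfl, hr⟩
    rw [h1]
    apply max_eq_left
    obtain ⟨w, hw⟩ := hr.exists_path_of_dist
    have hlen : n < w.length + 1 := by
      apply (G_spec n).2.1 (w.length + 1) (fun i => w.getVert i)
      have hne : x ≠ y := hxy.ne
      have hl0 : w.length ≠ 0 := by
        intro h0
        exact hne (SimpleGraph.Walk.eq_of_length_eq_zero h0)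
      have hl1 : w.length ≠ 1 := by
        intro h1
        have h2 := w.adj_getVert_succ (i := 0) (by omega)
        rw [SimpleGraph.Walk.getVert_zero, zero_add] at h2
        have h3 : w.getVert 1 = y := by
          have := w.getVert_length
          rwa [h1] at this
        rw [h3, SimpleGraph.deleteEdges_adj] at h2
        exact h2.2 rfl
      refine ⟨by omega, ?_, ?_, ?_⟩
      · intro i hi j hj hij
        exact hw.1.getVert_injOn (by simp; omega) (by simp; omega) hij
      · intro i hi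
        have h2 := w.adj_getVert_succ (i := i) (by omega)
        exact (SimpleGraph.deleteEdges_le _) h2
      · show (G n).Adj (w.getVert (w.length + 1 - 1)) (w.getVert 0)
        rw [Nat.add_sub_cancel, SimpleGraph.Walk.getVert_length, SimpleGraph.Walk.getVert_zero]
        exact hxy.symm
    have h2 : K ≤ ((G n).deleteEdges {s(x, y)}).dist x y := by
      rw [← hw.2]
      omega
    have hK' : (0 : ℝ) < K := by exact_mod_cast hK
    have h3 : (1 : ℝ) ≤ (((G n).deleteEdges {s(x, y)}).dist x y : ℝ) / K := by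
      rw [le_div_iff₀ hK', one_mul]
      exact_mod_cast h2
    linarith
  · exact if_neg fun h => hr h.2

lemma bump_edge {n K x y u v : ℕ} (hK : 0 < K) (huv : (G n).Adj u v) (hne : s(u, v) ≠ s(x, y)) :
    |bump n K x y (pt n u) - bump n K x y (pt n v)| ≤ 1 / K := by
  have hK' : (0 : ℝ) < K := by exact_mod_cast hK
  have hT : ((G n).deleteEdges {s(x, y)}).Adj u v := by
    rw [SimpleGraph.deleteEdges_adj]
    exact ⟨huv, hne⟩
  by_cases hr : ((G n).deleteEdges {s(x, y)}).Reachable x u
  · have hr' : ((G n).deleteEdges {s(x, y)}).Reachable x v := hr.trans hT.reachable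
    have h1 : bump n K x y (pt n u) =
        max 0 (1 - (((G n).deleteEdges {s(x, y)}).dist x u : ℝ) / K) := if_pos ⟨rfl, hr⟩
    have h2 : bump n K x y (pt n v) =
        max 0 (1 - (((G n).deleteEdges {s(x, y)}).dist x v : ℝ) / K) := if_pos ⟨rfl, hr'⟩
    rw [h1, h2]
    have hmax : ∀ a b : ℝ, |max 0 a - max 0 b| ≤ |a - b| := fun a b => by
      rw [max_comm 0 a, max_comm 0 b]
      exact abs_max_sub_max_le_abs a b 0
    refine (hmax _ _).trans ?_
    obtain ⟨w1, hw1⟩ := hr.exists_walk_length_eq_dist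
    obtain ⟨w2, hw2⟩ := hr'.exists_walk_length_eq_dist
    have h3 : ((G n).deleteEdges {s(x, y)}).dist x v ≤
        ((G n).deleteEdges {s(x, y)}).dist x u + 1 := by
      have := SimpleGraph.dist_le (w1.append (SimpleGraph.Walk.cons hT SimpleGraph.Walk.nil))
      rw [SimpleGraph.Walk.length_append, SimpleGraph.Walk.length_cons,
        SimpleGraph.Walk.length_nil, hw1] at this
      exact this
    have h4 : ((G n).deleteEdges {s(x, y)}).dist x u ≤
        ((G n).deleteEdges {s(x, y)}).dist x v + 1 := by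
      have := SimpleGraph.dist_le (w2.append (SimpleGraph.Walk.cons hT.symm SimpleGraph.Walk.nil))
      rw [SimpleGraph.Walk.length_append, SimpleGraph.Walk.length_cons,
        SimpleGraph.Walk.length_nil, hw2] at this
      exact this
    have h3' : (((G n).deleteEdges {s(x, y)}).dist x v : ℝ) ≤
        ((G n).deleteEdges {s(x, y)}).dist x u + 1 := by exact_mod_cast h3
    have h4' : (((G n).deleteEdges {s(x, y)}).dist x u : ℝ) ≤
        ((G n).deleteEdges {s(x, y)}).dist x v + 1 := by exact_mod_cast h4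
    have e : 1 - (((G n).deleteEdges {s(x, y)}).dist x u : ℝ) / K -
        (1 - (((G n).deleteEdges {s(x, y)}).dist x v : ℝ) / K) =
        ((((G n).deleteEdges {s(x, y)}).dist x v : ℝ) -
          ((G n).deleteEdges {s(x, y)}).dist x u) / K := by ring
    rw [e, abs_div, abs_of_pos hK']
    apply div_le_div_of_nonneg_right _ hK'.le
    rw [abs_le]
    constructor <;> linarith
  · have hr' : ¬ ((G n).deleteEdges {s(x, y)}).Reachable x v := fun h =>
      hr (h.trans hT.symm.reachable)
    have h1 : bump n K x y (pt n u) = 0 := if_neg fun h => hr h.2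
    have h2 : bump n K x y (pt n v) = 0 := if_neg fun h => hr' h.2
    rw [h1, h2, sub_zero, abs_zero]
    positivity

/-- The base point. -/
def o : M := pt 0 0

lemma far {n : ℕ} {p q : M} (hpq : ¬ (p.1 = n ∧ q.1 = n ∧ (G n).Reachable p.2 q.2))
    (h : p.1 = n ∨ q.1 = n) : (n : ℝ) ≤ dist p q := by
  have h1 : ¬ (p.1 = q.1 ∧ (G p.1).Reachable p.2 q.2) := by
    rintro ⟨h1, h2⟩
    apply hpq
    rcases h with h | h
    · exact ⟨h, h1 ▸ h, h ▸ h2⟩
    · have h' : p.1 = n := h1.trans h
      exact ⟨h', h, h' ▸ h2⟩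
  have h2 : dd p q = R p.1 + R q.1 := if_neg h1
  rw [dist_M, h2]
  have h3 := (G_spec n).2.2.2.1
  rcases h with h | h
  · rw [h]; exact_mod_cast h3.trans (Nat.le_add_right _ _)
  · rw [h]; exact_mod_cast h3.trans (Nat.le_add_left _ _)

lemma asq : ASQ (Lip0 M o) := by
  intro k F hF ε hε
  obtain ⟨K, hK⟩ := exists_nat_gt (1 / ε)
  have hK0 : (0 : ℝ) < K := lt_trans (by positivity) hK
  have hK1 : 0 < K := by exact_mod_cast hK0
  have hKε : 1 / (K : ℝ) ≤ ε := by
    rw [div_le_iff₀ hK0]
    rw [div_lt_iff₀ hε] at hK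
    linarith
  set n : ℕ := max ((K + 2) ^ k) K with hn
  have hn1 : (K + 2) ^ k ≤ n := le_max_left _ _
  have hn2 : K ≤ n := le_max_right _ _
  have hFlip : ∀ i p q, |(F i).fn p - (F i).fn q| ≤ dist p q := by
    intro i p q
    have := (F i).abs_sub_le p q
    rwa [hF i, one_mul] at this
  obtain ⟨x, y, hxy, hmono⟩ := exists_mono hK1 hn1 (fun i u => (F i).fn (pt n u))
    (fun i u v huv => (hFlip i _ _).trans (dist_adj huv).le)
  have hb0 : bump n K x y o = 0 := bump_other (by
    show (0 : ℕ) ≠ n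
    omega)
  have hblip : ∀ p q, |bump n K x y p - bump n K x y q| ≤ 1 * dist p q := by
    intro p q
    by_cases hpq : p = q
    · rw [hpq]; simp
    · rw [one_mul]
      exact (abs_bump_sub_le _ _ _ _ _ _).trans (one_le_dist hpq)
  let g : Lip0 M o := Lip0.mk (bump n K x y) hb0 1 zero_le_one hblip
  have hg : ‖g‖ = 1 := by
    apply le_antisymm (Lip0.norm_le' g zero_le_one hblip)
    have h1 := g.abs_sub_le (pt n x) (pt n y)
    rw [dist_adj hxy, mul_one] at h1
    have h2 : g.fn (pt n x) = 1 := bump_x n K x y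
    have h3 : g.fn (pt n y) = 0 := bump_y hK1 hn2 hxy
    rw [h2, h3, sub_zero, abs_one] at h1
    exact h1
  have key : ∀ (i : Fin k) (σ : ℝ), |σ| = 1 → ∀ p q,
      |((F i).fn p + σ * bump n K x y p) - ((F i).fn q + σ * bump n K x y q)| ≤
        (1 + 1 / K) * dist p q := by
    intro i σ hσ
    have hsplit : ∀ p q, |((F i).fn p + σ * bump n K x y p) -
        ((F i).fn q + σ * bump n K x y q)| ≤
        |(F i).fn p - (F i).fn q| + |bump n K x y p - bump n K x y q| := by
      intro p q
      have e : ((F i).fn p + σ * bump n K x y p) - ((F i).fn q + σ * bump n K x y q) =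
          ((F i).fn p - (F i).fn q) + σ * (bump n K x y p - bump n K x y q) := by ring
      rw [e]
      refine (abs_add_le _ _).trans ?_
      rw [abs_mul, hσ, one_mul]
    refine lip_of_edges n (fun p => (F i).fn p + σ * bump n K x y p) _ ?_ ?_
    · intro u v huv
      refine (hsplit _ _).trans ?_
      by_cases hne : s(u, v) = s(x, y)
      · have h1 : |(F i).fn (pt n u) - (F i).fn (pt n v)| ≤ 1 / K := by
          rcases Sym2.eq_iff.1 hne with ⟨rfl, rfl⟩ | ⟨rfl, rfl⟩
          · exact hmono i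
          · rw [abs_sub_comm]; exact hmono i
        have h2 := abs_bump_sub_le n K x y (pt n u) (pt n v)
        linarith
      · have h1 := bump_edge hK1 huv hne
        have h2 := hFlip i (pt n u) (pt n v)
        rw [dist_adj huv] at h2
        linarith
    · intro p q hpq
      refine (hsplit p q).trans ?_
      have h1 := hFlip i p q
      by_cases h : p.1 = n ∨ q.1 = n
      · have h2 := far hpq h
        have h3 := abs_bump_sub_le n K x y p q
        have h4 : (1 : ℝ) ≤ 1 / K * dist p q := by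
          rw [one_div, ← div_eq_inv_mul, le_div_iff₀ hK0, one_mul]
          refine le_trans ?_ h2
          exact_mod_cast hn2
        rw [add_mul, one_mul]
        linarith
      · push Not at h
        rw [bump_other h.1, bump_other h.2, sub_zero, abs_zero, add_zero, add_mul, one_mul]
        have h4 : 0 ≤ 1 / (K : ℝ) * dist p q := by positivity
        linarith
  have hdiff : ∀ p q : M, (1 + 1 / (K : ℝ)) * dist p q ≤ (1 + ε) * dist p q := fun p q =>
    mul_le_mul_of_nonneg_right (by linarith) dist_nonneg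
  refine ⟨g, hg, fun i => ⟨?_, ?_⟩⟩
  · apply Lip0.norm_le' _ (by positivity)
    intro p q
    have h1 := (key i 1 abs_one p q).trans (hdiff p q)
    rw [one_mul, one_mul] at h1
    exact h1
  · apply Lip0.norm_le' _ (by positivity)
    intro p q
    have h1 := (key i (-1) (by simp) p q).trans (hdiff p q)
    have e : ∀ p, (F i).fn p + -1 * bump n K x y p = (F i - g).fn p := by
      intro p
      rw [Lip0.fn_sub]
      show _ = (F i).fn p - bump n K x y p
      ring
    rw [e, e] at h1
    exact h1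

/-- There is an unbounded uniformly discrete metric space `M` whose space of Lipschitz functions
vanishing at a base point is almost square. -/
theorem result : ∃ (M : Type) (_ : MetricSpace M) (o : M), UniformlyDiscrete M ∧
    (∀ C : ℝ, ∃ p q : M, C < dist p q) ∧ ASQ (Lip0 M o) := by
  refine ⟨M, inferInstance, o, ⟨1, one_pos, fun p q h => one_le_dist h⟩, fun C => ?_, asq⟩
  obtain ⟨n, hn⟩ := exists_nat_gt (max C 0)
  refine ⟨pt n 0, pt 0 0, ?_⟩
  have hn0 : (0 : ℝ) < n := lt_of_le_of_lt (le_max_right _ _) hn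
  have h1 : (n : ℝ) ≤ dist (pt n 0) (pt 0 0) := by
    refine far (n := n) (p := pt n 0) (q := pt 0 0) ?_ (Or.inl rfl)
    rintro ⟨_, h, _⟩
    have h' : (0 : ℕ) = n := h
    rw [← h'] at hn0
    norm_num at hn0
  exact lt_of_lt_of_le (lt_of_le_of_lt (le_max_left _ _) hn) h1

end Pool.Agent.Results.MP_fe8a5b_an.DiscreteAlmostSquare
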